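import Mathlib

set_option autoImplicit false

open scoped commutatorElement

namespace Pool.Agent.Results.MP_af8aea_al.SingleClass

/-- The commuting graph on a set `D` of elements of a group: distinct elements are joined when
they commute. -/
def commGraph {G : Type} [Group G] (D : Set G) : SimpleGraph D where
  Adj a b := a ≠ b ∧ (a : G) * b = b * a
  symm := ⟨fun _ _ h => ⟨h.1.symm, h.2.symm⟩⟩
  loopless := ⟨fun _ h => h.1 rfl⟩

section basic

variable {G H : Type} [Group G] [Group H]

theorem mem_cj {a b : G} : b ∈ conjugatesOf a ↔ IsConj a b := Iff.rfl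

theorem reach_of_commute {D : Set G} (a b : D) (h : (a : G) * b = b * a) :
    (commGraph D).Reachable a b := by
  by_cases hab : a = b
  · rw [hab]
  · exact SimpleGraph.Adj.reachable ⟨hab, h⟩

theorem reach_map {D : Set G} {E : Set H} (f : D → E)
    (hf : ∀ a b : D, (a : G) * b = b * a → (f a : H) * f b = f b * f a) {a b : D}
    (h : (commGraph D).Reachable a b) : (commGraph E).Reachable (f a) (f b) := by
  obtain ⟨w⟩ := h
  induction w with
  | nil => exact SimpleGraph.Reachable.refl _
  | cons hadj _ ih => exact (reach_of_commute _ _ (hf _ _ hadj.2)).trans ih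

theorem connected_image {D : Set G} (f : G →* H) (h : (commGraph D).Connected) :
    (commGraph (f '' D)).Connected := by
  rw [SimpleGraph.connected_iff]
  refine ⟨?_, ?_⟩
  · rintro ⟨_, a, ha, rfl⟩ ⟨_, b, hb, rfl⟩
    exact reach_map (D := D) (E := f '' D) (fun x => ⟨f x, x, x.2, rfl⟩)
      (fun x y hxy => by
        change f x * f y = f y * f x
        rw [← map_mul, hxy, map_mul]) (h.preconnected ⟨a, ha⟩ ⟨b, hb⟩)
  · obtain ⟨⟨a, ha⟩⟩ := h.nonempty
    exact ⟨⟨f a, a, ha, rfl⟩⟩

/-- A graph on `D` in which commuting elements of `D` are equal and which is connected has one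
vertex. -/
theorem eq_of_edgeless {D : Set G} (h : ∀ a ∈ D, ∀ b ∈ D, a * b = b * a → a = b)
    (hc : (commGraph D).Connected) (a b : D) : a = b := by
  obtain ⟨w⟩ := hc.preconnected a b
  induction w with
  | nil => rfl
  | cons hadj _ ih => exact absurd (Subtype.ext (h _ (Subtype.mem _) _ (Subtype.mem _) hadj.2)) hadj.1

end basic

section metabelian

variable {Q : Type} [Group Q] [Finite Q]

theorem metabelian_case (d : Q) (hgen : Subgroup.closure (conjugatesOf d) = ⊤)
    (hab : ∀ a ∈ commutator Q, ∀ b ∈ commutator Q, a * b = b * a) (hne : commutator Q ≠ ⊥) :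
    ¬ (commGraph (conjugatesOf d)).Connected := by
  classical
  -- conjugates of d
  have hconj : ∀ e ∈ conjugatesOf d, ∃ a ∈ commutator Q, e = a * d := by
    intro e he
    obtain ⟨g, hg⟩ := isConj_iff.mp (mem_cj.mp he)
    refine ⟨⁅g, d⁆, Subgroup.commutator_mem_commutator (Subgroup.mem_top _) (Subgroup.mem_top _), ?_⟩
    rw [← hg, commutatorElement_def]
    group
  have hN : (commutator Q).Normal := inferInstance
  have hzp : ∀ (k : ℤ) (a : Q), a ∈ commutator Q → d ^ k * a * (d ^ k)⁻¹ ∈ commutator Q :=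
    fun k a ha => hN.conj_mem a ha _
  have hform : ∀ x : Q, ∃ k : ℤ, ∃ a ∈ commutator Q, x = a * d ^ k := by
    intro x
    have hx : x ∈ Subgroup.closure (conjugatesOf d) := by rw [hgen]; exact Subgroup.mem_top _
    induction hx using Subgroup.closure_induction with
    | mem x hx =>
      obtain ⟨a, ha, h⟩ := hconj x hx
      exact ⟨1, a, ha, by rw [zpow_one]; exact h⟩
    | one => exact ⟨0, 1, Subgroup.one_mem _, by simp⟩
    | mul x y _ _ hx hy =>
      obtain ⟨k, a, ha, rfl⟩ := hx
      obtain ⟨l, b, hb, rfl⟩ := hy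
      refine ⟨k + l, a * (d ^ k * b * (d ^ k)⁻¹), Subgroup.mul_mem _ ha (hzp k b hb), ?_⟩
      rw [zpow_add]
      group
    | inv x _ hx =>
      obtain ⟨k, a, ha, rfl⟩ := hx
      refine ⟨-k, d ^ (-k) * a⁻¹ * (d ^ (-k))⁻¹, hzp (-k) _ (Subgroup.inv_mem _ ha), ?_⟩
      rw [zpow_neg]
      group
  -- the map a ↦ [a, d]
  have hdm : ∀ a ∈ commutator Q, a * (d * a⁻¹ * d⁻¹) ∈ commutator Q := fun a ha =>
    Subgroup.mul_mem _ ha (hN.conj_mem _ (Subgroup.inv_mem _ ha) _)
  let θ : ↥(commutator Q) →* Q := MonoidHom.mk' (fun a => (a : Q) * (d * (a : Q)⁻¹ * d⁻¹)) (by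
    rintro ⟨a, ha⟩ ⟨b, hb⟩
    change a * b * (d * (a * b)⁻¹ * d⁻¹) = (a * (d * a⁻¹ * d⁻¹)) * (b * (d * b⁻¹ * d⁻¹))
    have h1 : (d * a⁻¹ * d⁻¹) ∈ commutator Q := hN.conj_mem _ (Subgroup.inv_mem _ ha) _
    have h2 : a * b * (d * (a * b)⁻¹ * d⁻¹) =
        a * ((b * (d * b⁻¹ * d⁻¹)) * (d * a⁻¹ * d⁻¹)) := by group
    rw [h2, hab _ (hdm b hb) _ h1, ← mul_assoc])
  have hθ : ∀ a : ↥(commutator Q), θ a = (a : Q) * (d * (a : Q)⁻¹ * d⁻¹) := fun a => rfl
  have hBA : θ.range ≤ commutator Q := by
    rintro _ ⟨a, rfl⟩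
    exact hdm a a.2
  have hBn : θ.range.Normal := by
    constructor
    rintro _ ⟨c, rfl⟩ g
    obtain ⟨k, a, ha, rfl⟩ := hform g
    refine ⟨⟨d ^ k * c * (d ^ k)⁻¹, hzp k c c.2⟩, ?_⟩
    rw [hθ, hθ]
    change (d ^ k * c * (d ^ k)⁻¹) * (d * (d ^ k * c * (d ^ k)⁻¹)⁻¹ * d⁻¹) = _
    have h1 : (d ^ k * c * (d ^ k)⁻¹) * (d * (d ^ k * c * (d ^ k)⁻¹)⁻¹ * d⁻¹) =
        d ^ k * ((c : Q) * (d * (c : Q)⁻¹ * d⁻¹)) * (d ^ k)⁻¹ := by
      have h2 : d * d ^ k = d ^ k * d := by rw [← zpow_one_add, ← zpow_add_one, add_comm]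
      have h3 : d * (d ^ k * c * (d ^ k)⁻¹)⁻¹ * d⁻¹ = (d * d ^ k) * (c : Q)⁻¹ * (d * d ^ k)⁻¹ := by
        group
      rw [h3, h2]
      group
    rw [h1]
    have h4 : d ^ k * ((c : Q) * (d * (c : Q)⁻¹ * d⁻¹)) * (d ^ k)⁻¹ ∈ commutator Q :=
      hzp k _ (hdm c c.2)
    have h5 : a * d ^ k * ((c : Q) * (d * (c : Q)⁻¹ * d⁻¹)) * (a * d ^ k)⁻¹ =
        a * (d ^ k * ((c : Q) * (d * (c : Q)⁻¹ * d⁻¹)) * (d ^ k)⁻¹) * a⁻¹ := by group
    rw [h5, hab a ha _ h4, mul_inv_cancel_right]
  -- the quotient by the range is commutative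
  have hcommle : commutator Q ≤ θ.range := by
    refine Subgroup.commutator_le.mpr ?_
    intro x _ y _
    rw [← QuotientGroup.eq_one_iff]
    have hcd : ∀ a ∈ commutator Q, Commute (QuotientGroup.mk' θ.range a)
        (QuotientGroup.mk' θ.range d) := by
      intro a ha
      have h1 : QuotientGroup.mk' θ.range (a * (d * a⁻¹ * d⁻¹)) = 1 :=
        (QuotientGroup.eq_one_iff _).mpr ⟨⟨a, ha⟩, rfl⟩
      have h2 : a * (d * a⁻¹ * d⁻¹) * (d * a) = a * d := by group
      have h3 := congrArg (QuotientGroup.mk' θ.range) h2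
      rw [map_mul, h1, one_mul, map_mul, map_mul] at h3
      exact h3.symm
    have hcc : ∀ a ∈ commutator Q, ∀ b ∈ commutator Q, Commute (QuotientGroup.mk' θ.range a)
        (QuotientGroup.mk' θ.range b) := by
      intro a ha b hb
      change _ * _ = _ * _
      rw [← map_mul, hab a ha b hb, map_mul]
    obtain ⟨k, a, ha, rfl⟩ := hform x
    obtain ⟨l, b, hb, rfl⟩ := hform y
    have h4 : Commute (QuotientGroup.mk' θ.range (a * d ^ k))
        (QuotientGroup.mk' θ.range (b * d ^ l)) := by
      rw [map_mul, map_mul, map_zpow, map_zpow]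
      refine Commute.mul_left (Commute.mul_right (hcc a ha b hb) ((hcd a ha).zpow_right l)) ?_
      refine Commute.mul_right (((hcd b hb).symm).zpow_left k) ?_
      exact (Commute.refl _).zpow_zpow k l
    have h5 : ((⁅a * d ^ k, b * d ^ l⁆ : Q) : Q ⧸ θ.range) =
        ⁅QuotientGroup.mk' θ.range (a * d ^ k), QuotientGroup.mk' θ.range (b * d ^ l)⁆ := rfl
    rw [h5, commutatorElement_eq_one_iff_commute]
    exact h4
  -- so θ is injective
  have hinj : ∀ a ∈ commutator Q, a * d = d * a → a = 1 := by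
    have h1 : Function.Surjective (fun a : ↥(commutator Q) =>
        (⟨θ a, hBA ⟨a, rfl⟩⟩ : ↥(commutator Q))) := by
      rintro ⟨b, hb⟩
      obtain ⟨a, ha⟩ := hcommle hb
      exact ⟨a, Subtype.ext ha⟩
    have h2 := Finite.injective_iff_surjective.mpr h1
    intro a ha had
    have h3 : (⟨a, ha⟩ : ↥(commutator Q)) = 1 := by
      apply h2
      apply Subtype.ext
      change θ ⟨a, ha⟩ = θ 1
      rw [map_one, hθ]
      change a * (d * a⁻¹ * d⁻¹) = 1
      have h4 : a * (d * a⁻¹ * d⁻¹) = (a * d) * (d * a)⁻¹ := by group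
      rw [h4, had, mul_inv_cancel]
    exact congrArg Subtype.val h3
  -- no edges
  have hedge : ∀ x ∈ conjugatesOf d, ∀ y ∈ conjugatesOf d, x * y = y * x → x = y := by
    intro x hx y hy hxy
    obtain ⟨g, hg⟩ := isConj_iff.mp (mem_cj.mp hx)
    have hy' : g⁻¹ * y * g ∈ conjugatesOf d := by
      rw [mem_cj] at hy ⊢
      refine hy.trans (isConj_iff.mpr ⟨g⁻¹, by group⟩)
    obtain ⟨a, ha, hay⟩ := hconj _ hy'
    have h1 : (g⁻¹ * y * g) * d = d * (g⁻¹ * y * g) := by
      have h2 : d = g⁻¹ * x * g := by rw [← hg]; group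
      rw [h2]
      have h3 : g⁻¹ * y * g * (g⁻¹ * x * g) = g⁻¹ * (y * x) * g := by group
      rw [h3, ← hxy]
      group
    rw [hay] at h1
    have h2 : a * d = d * a := by
      have h3 : a * d * d = d * a * d := by rw [h1]; group
      exact mul_right_cancel h3
    have h3 := hinj a ha h2
    rw [h3, one_mul] at hay
    rw [← hg, ← hay]
    group
  intro hc
  have hone : ∀ x ∈ conjugatesOf d, x = d := fun x hx =>
    congrArg Subtype.val (eq_of_edgeless hedge hc ⟨x, hx⟩ ⟨d, mem_conjugatesOf_self⟩)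
  apply hne
  rw [Subgroup.eq_bot_iff_forall]
  intro a ha
  apply hinj a ha
  have h1 : a * d * a⁻¹ = d := hone _ (mem_cj.mpr (isConj_iff.mpr ⟨a, rfl⟩))
  calc a * d = a * d * a⁻¹ * a := by group
    _ = d * a := by rw [h1]

end metabelian

/-- **Single classes.** Let the finite group `G` be generated by the conjugacy class of an
involution `d`, and suppose that `G` is soluble or that the derived subgroup of `G` is not
perfect. Then the commuting graph on the class of `d` is disconnected if and
only if `|G| ≠ 2`. -/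
theorem result {G : Type} [Group G] [Finite G] (d : G) (hd : orderOf d = 2)
    (hgen : Subgroup.closure (conjugatesOf d) = ⊤)
    (hG : Group.IsSolvable G ∨ ⁅commutator G, commutator G⁆ ≠ commutator G) :
    ¬ (commGraph (conjugatesOf d)).Connected ↔ Nat.card G ≠ 2 := by
  constructor
  · intro h hcard
    apply h
    have hcomm : ∀ a b : G, a * b = b * a := by
      have : Fact (Nat.Prime 2) := ⟨Nat.prime_two⟩
      have hcyc : IsCyclic G := isCyclic_of_prime_card hcard
      intro a b
      exact (IsCyclic.isMulCommutative (α := G)).is_comm.comm a b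
    rw [SimpleGraph.connected_iff]
    refine ⟨?_, ⟨⟨d, mem_conjugatesOf_self⟩⟩⟩
    intro a b
    exact reach_of_commute a b (hcomm _ _)
  · intro hcard hc
    have hperf : ⁅commutator G, commutator G⁆ = commutator G := by
      by_contra hnp
      -- pass to G / G''
      let N : Subgroup G := ⁅commutator G, commutator G⁆
      have hNn : N.Normal := Subgroup.commutator_normal _ _
      have hsur := QuotientGroup.mk'_surjective N
      have hcomQ : (commutator G).map (QuotientGroup.mk' N) = commutator (G ⧸ N) := by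
        rw [commutator_def, Subgroup.map_commutator, commutator_def,
          Subgroup.map_top_of_surjective _ hsur]
      have himg : (QuotientGroup.mk' N) '' (conjugatesOf d) =
          conjugatesOf (QuotientGroup.mk' N d) := by
        ext x
        constructor
        · rintro ⟨y, hy, rfl⟩
          obtain ⟨g, hg⟩ := isConj_iff.mp (mem_cj.mp hy)
          refine mem_cj.mpr (isConj_iff.mpr ⟨QuotientGroup.mk' N g, ?_⟩)
          rw [← hg, map_mul, map_mul, map_inv]
        · intro hx
          obtain ⟨g, hg⟩ := isConj_iff.mp (mem_cj.mp hx)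
          obtain ⟨g', rfl⟩ := hsur g
          refine ⟨g' * d * g'⁻¹, mem_cj.mpr (isConj_iff.mpr ⟨g', rfl⟩), ?_⟩
          rw [← hg, map_mul, map_mul, map_inv]
      have hgenQ : Subgroup.closure (conjugatesOf (QuotientGroup.mk' N d)) = ⊤ := by
        rw [← himg, ← MonoidHom.map_closure, hgen, Subgroup.map_top_of_surjective _ hsur]
      have h1 := connected_image (QuotientGroup.mk' N) hc
      rw [himg] at h1
      refine metabelian_case (QuotientGroup.mk' N d) hgenQ ?_ ?_ h1
      · rw [← hcomQ]
        rintro _ ⟨a, ha, rfl⟩ _ ⟨b, hb, rfl⟩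
        rw [← map_mul, ← map_mul]
        apply (QuotientGroup.eq (s := N)).mpr
        have h2 : (a * b)⁻¹ * (b * a) = ⁅b⁻¹, a⁻¹⁆ := by rw [commutatorElement_def]; group
        rw [h2]
        exact Subgroup.commutator_mem_commutator (Subgroup.inv_mem _ hb) (Subgroup.inv_mem _ ha)
      · intro hbot
        apply hnp
        apply le_antisymm (Subgroup.commutator_le_left _ _)
        rw [← hcomQ, Subgroup.map_eq_bot_iff, QuotientGroup.ker_mk'] at hbot
        exact hbot
    rcases hG with hsol | hnp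
    · -- soluble with perfect derived subgroup: abelian
      have hbot : commutator G = ⊥ := by
        by_contra hne
        have hnt : Nontrivial ↥(commutator G) := (Subgroup.nontrivial_iff_ne_bot _).mpr hne
        have hlt := Group.IsSolvable.commutator_lt_top_of_nontrivial ↥(commutator G)
        apply hlt.ne
        apply Subgroup.map_injective (commutator G).subtype_injective
        rw [commutator_def (commutator G), Subgroup.map_commutator, ← MonoidHom.range_eq_map,
          Subgroup.range_subtype, hperf]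
      have hcomm : ∀ a b : G, a * b = b * a := by
        intro a b
        have h1 : ⁅a, b⁆ ∈ commutator G :=
          Subgroup.commutator_mem_commutator (Subgroup.mem_top _) (Subgroup.mem_top _)
        rw [hbot, Subgroup.mem_bot] at h1
        exact commutatorElement_eq_one_iff_mul_comm.mp h1
      have hconj : conjugatesOf d = {d} := by
        ext x
        rw [Set.mem_singleton_iff]
        constructor
        · intro hx
          obtain ⟨g, hg⟩ := isConj_iff.mp (mem_cj.mp hx)
          rw [← hg, hcomm g d, mul_inv_cancel_right]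
        · rintro rfl
          exact mem_conjugatesOf_self
      rw [hconj, ← Subgroup.zpowers_eq_closure] at hgen
      apply hcard
      have h2 := Nat.card_zpowers d
      rw [hgen, hd, Subgroup.card_top] at h2
      exact h2
    · exact hnp hperf

end Pool.Agent.Results.MP_af8aea_al.SingleClass
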